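import Pool.Agent.Y527.ZA.Stm
set_option autoImplicit false

/-! ZA-ARI (helper908): the sets of naturals which are definable in the ring of integers. -/

namespace Pool.Agent.Y908.ZA

open FirstOrder FirstOrder.Language
open Pool.Agent.Helper967.ArithDef Pool.Agent.Helper967.ModelDef Pool.Agent.H358R3
open Pool.Agent.H358R3.Df (strO)
open Pool.Agent.Y527.ZA

attribute [local instance] Df.strO

/-- decoding of integers -/
def dcZ (c : ℕ) : ℤ := (c.unpair.1 : ℤ) - (c.unpair.2 : ℤ)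

theorem dcZ_pair (a b : ℕ) : dcZ (Nat.pair a b) = (a : ℤ) - (b : ℤ) := by
  unfold dcZ
  rw [Nat.unpair_pair]

theorem dcZ_surj : Function.Surjective dcZ := by
  intro z
  refine ⟨Nat.pair z.toNat (-z).toNat, ?_⟩
  rw [dcZ_pair]
  omega

theorem dcZ_add {D : ((ℕ → ℕ) → Prop) → Prop} (h : DC D) :
    D (fun w => dcZ (w 0) + dcZ (w 1) = dcZ (w 2)) := by
  refine h.iff (fun w => ?_) (h.eq
    (h.tadd (h.tadd (h.tfst (h.tvar 0)) (h.tfst (h.tvar 1))) (h.tsnd (h.tvar 2)))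
    (h.tadd (h.tadd (h.tfst (h.tvar 2)) (h.tsnd (h.tvar 0))) (h.tsnd (h.tvar 1))))
  unfold dcZ
  omega

theorem dcZ_mul {D : ((ℕ → ℕ) → Prop) → Prop} (h : DC D) :
    D (fun w => dcZ (w 0) * dcZ (w 1) = dcZ (w 2)) := by
  refine h.iff (fun w => ?_) (h.eq
    (h.tadd (h.tadd (h.tmul (h.tfst (h.tvar 0)) (h.tfst (h.tvar 1)))
      (h.tmul (h.tsnd (h.tvar 0)) (h.tsnd (h.tvar 1)))) (h.tsnd (h.tvar 2)))
    (h.tadd (h.tadd (h.tfst (h.tvar 2)) (h.tmul (h.tfst (h.tvar 0)) (h.tsnd (h.tvar 1))))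
      (h.tmul (h.tfst (h.tvar 1)) (h.tsnd (h.tvar 0)))))
  unfold dcZ
  rw [← @Nat.cast_inj ℤ]
  push_cast
  constructor
  · intro h1
    linear_combination h1
  · intro h1
    linear_combination h1

theorem h_nat : Df.D ℤ (fun v => ∃ n : ℕ, v 0 = (n : ℤ)) := by
  refine Df.d_nat_of_int (O := ℤ) ?_
  refine DM.iff (R := fun _ _ => True) (fun i v => ?_) (DM.const True)
  exact ⟨fun _ => ⟨v 0, by simp⟩, fun _ => trivial⟩

theorem h_ARI (hF : s_FORM) : s_ARI := by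
  intro A
  constructor
  · intro hA D h
    unfold Arith Set.Definable₁ at hA
    rw [Set.empty_definable_iff] at hA
    obtain ⟨ψ, hψ⟩ := hA
    have hr : ∀ z : ℤ, ψ.Realize (fun _ : Fin 1 => z) ↔ ∃ a ∈ A, z = (a : ℤ) := by
      intro z
      have h1 := Set.ext_iff.1 hψ (fun _ : Fin 1 => z)
      exact h1.symm
    have h2 := hF ℤ dcZ D h dcZ_surj (dcZ_add h) (dcZ_mul h)
      (ψ.relabel (Sum.inr : Fin 1 → ℤ ⊕ Fin 1))
    have h3 : D (fun w => ∃ a ∈ A, dcZ (w 0) = (a : ℤ)) := by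
      refine h.iff (fun w => ?_) h2
      rw [Formula.realize_relabel]
      have e : (Sum.elim id (fun _ : Fin 1 => dcZ (w 0)) : ℤ ⊕ Fin 1 → ℤ) ∘ Sum.inr =
          fun _ : Fin 1 => dcZ (w 0) := rfl
      rw [e]
      exact hr _
    have h4 := h.app1 (R := fun c => ∃ a ∈ A, dcZ c = (a : ℤ)) h3 (h.tpair (h.tvar 0) h.tzero)
    refine h.iff (fun w => ?_) h4
    rw [dcZ_pair]
    constructor
    · rintro ⟨a, ha, hw⟩
      have : w 0 = a := by omega
      rw [this]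
      exact ha
    · intro hw
      exact ⟨w 0, hw, by simp⟩
  · intro hA
    have hc := DN.closed (Df.interp_nat (O := ℤ) h_nat)
    obtain ⟨φ, hφ⟩ := hA _ hc
    refine Df.definable_of_D (R := fun x : ℤ => ∃ a ∈ A, x = (a : ℤ)) ?_
    have h1 : DM (M := fun _ : Unit => ℤ) Language.ring (Df.par ℤ)
        (fun _ v => φ.Realize (Sum.elim (Df.par ℤ ()) (fun _ : ℕ => v 0))) := by
      refine ⟨φ.relabel (Sum.map id (fun _ => 0)), fun i v => ?_⟩
      rw [realize_ren]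
    refine DM.iff (fun i v => ?_) (DM.and h_nat h1)
    constructor
    · rintro ⟨⟨n, hn⟩, h2⟩
      refine ⟨n, ?_, hn⟩
      rw [hn] at h2
      exact (hφ () (fun _ => n)).1 h2
    · rintro ⟨a, ha, hv⟩
      refine ⟨⟨a, hv⟩, ?_⟩
      rw [hv]
      exact (hφ () (fun _ => a)).2 ha

end Pool.Agent.Y908.ZA
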