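import Pool.Agent.Y527.ZA.Stm
set_option autoImplicit false

/-! ZA-OPS (helper908): addition and multiplication of codes of abelian integers are arithmetical. -/

namespace Pool.Agent.Y908.ZA

open Polynomial
open Pool.Agent.Helper967.ArithDef Pool.Agent.H358R3
open Pool.Agent.Y527.ZA

/-! ### evaluation -/

theorem ev_nil {R : Type} [CommSemiring R] (x : R) : ev [] x = 0 := rfl

theorem ev_cons {R : Type} [CommSemiring R] (c : ℕ) (l : List ℕ) (x : R) :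
    ev (c :: l) x = (c : R) + x * ev l x := rfl

theorem map_ev {R S : Type} [CommSemiring R] [CommSemiring S] (f : R →+* S) (l : List ℕ) (x : R) :
    f (ev l x) = ev l (f x) := by
  induction l with
  | nil => exact map_zero f
  | cons c l ih => rw [ev_cons, ev_cons, map_add, map_mul, map_natCast, ih]

theorem ev_nat (l : List ℕ) (x : ℕ) : ev l x = l.foldr (fun c s => c + x * s) 0 := by
  induction l with
  | nil => rfl
  | cons c l ih => rw [ev_cons, List.foldr_cons, ih, Nat.cast_id]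

theorem ev_natCast {R : Type} [CommSemiring R] (l : List ℕ) (a : ℕ) :
    ((ev l a : ℕ) : R) = ev l (a : R) := by
  have := map_ev (Nat.castRingHom R) l a
  simpa using this

/-- order of the root of unity -/
abbrev K (c : ℕ) : ℕ := c.unpair.1 + 1
/-- list of coefficients -/
abbrev L (c : ℕ) : List ℕ := Denumerable.ofNat (List ℕ) c.unpair.2

theorem zR_pow (N k m : ℕ) (hN : N ≠ 0) (hk : k ≠ 0) (h : N = k * m) :
    zR k hk = zR N hN ^ m := by
  subst h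
  have hm : m ≠ 0 := fun h0 => hN (by rw [h0, mul_zero])
  apply inc_inj
  rw [map_pow, inc_zR, inc_zR]
  unfold zt
  rw [← Complex.exp_nat_mul]
  congr 1
  have h1 : (k : ℂ) ≠ 0 := Nat.cast_ne_zero.2 hk
  have h2 : (m : ℂ) ≠ 0 := Nat.cast_ne_zero.2 hm
  push_cast
  field_simp

theorem dec_eq (c N m : ℕ) (hN : N ≠ 0) (h : N = K c * m) : dec c = ev (L c) (zR N hN ^ m) := by
  unfold dec
  rw [zR_pow N (K c) m hN (Nat.succ_ne_zero _) h]

/-- order conditions in terms of natural numbers -/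
def Ord (p a N : ℕ) : Prop := a ^ N ≡ 1 [MOD p] ∧ ∀ d, 0 < d → d < N → ¬ a ^ d ≡ 1 [MOD p]

theorem pow_eq_one_iff' (p a m : ℕ) : (a : ZMod p) ^ m = 1 ↔ a ^ m ≡ 1 [MOD p] := by
  rw [← ZMod.natCast_eq_natCast_iff, Nat.cast_pow, Nat.cast_one]

theorem ord_iff (p a N : ℕ) (hN : 0 < N) : orderOf (a : ZMod p) = N ↔ Ord p a N := by
  rw [orderOf_eq_iff hN]
  unfold Ord
  simp only [pow_eq_one_iff', ne_eq]
  constructor
  · rintro ⟨h1, h2⟩
    exact ⟨h1, fun d h3 h4 => h2 d h4 h3⟩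
  · rintro ⟨h1, h2⟩
    exact ⟨h1, fun d h3 h4 => h2 d h4 h3⟩

theorem dec_add_iff (hV : s_VAN) (c0 c1 c2 : ℕ) : dec c0 + dec c1 = dec c2 ↔
    ∀ p a : ℕ, p.Prime → Ord p a (K c0 * K c1 * K c2) →
      ev (L c0) (a ^ (K c1 * K c2)) + ev (L c1) (a ^ (K c0 * K c2)) ≡
        ev (L c2) (a ^ (K c0 * K c1)) [MOD p] := by
  have hN : K c0 * K c1 * K c2 ≠ 0 :=
    mul_ne_zero (mul_ne_zero (Nat.succ_ne_zero _) (Nat.succ_ne_zero _)) (Nat.succ_ne_zero _)
  let F : ℤ[X] := ev (L c0) (X ^ (K c1 * K c2)) + ev (L c1) (X ^ (K c0 * K c2)) -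
    ev (L c2) (X ^ (K c0 * K c1))
  have h1 : aeval (zR _ hN) F = dec c0 + dec c1 - dec c2 := by
    have e : ∀ (l : List ℕ) (m : ℕ), aeval (zR _ hN) (ev l (X ^ m : ℤ[X])) = ev l (zR _ hN ^ m) := by
      intro l m
      have := map_ev (aeval (R := ℤ) (zR _ hN)).toRingHom l (X ^ m : ℤ[X])
      simpa using this
    show aeval (zR _ hN) (ev (L c0) (X ^ (K c1 * K c2)) + ev (L c1) (X ^ (K c0 * K c2)) -
      ev (L c2) (X ^ (K c0 * K c1)) : ℤ[X]) = _
    rw [map_sub, map_add, e, e, e, dec_eq c0 _ (K c1 * K c2) hN (by ring),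
      dec_eq c1 _ (K c0 * K c2) hN (by ring), dec_eq c2 _ (K c0 * K c1) hN (by ring)]
  have h2 : ∀ a : ℕ, F.eval (a : ℤ) = ((ev (L c0) (a ^ (K c1 * K c2)) +
      ev (L c1) (a ^ (K c0 * K c2)) : ℕ) : ℤ) - ((ev (L c2) (a ^ (K c0 * K c1)) : ℕ) : ℤ) := by
    intro a
    have e : ∀ (l : List ℕ) (m : ℕ), (ev l (X ^ m : ℤ[X])).eval (a : ℤ) =
        ((ev l (a ^ m) : ℕ) : ℤ) := by
      intro l m
      have := map_ev (evalRingHom (a : ℤ)) l (X ^ m : ℤ[X])
      rw [ev_natCast, Nat.cast_pow]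
      simpa using this
    show (ev (L c0) (X ^ (K c1 * K c2)) + ev (L c1) (X ^ (K c0 * K c2)) -
      ev (L c2) (X ^ (K c0 * K c1)) : ℤ[X]).eval (a : ℤ) = _
    rw [eval_sub, eval_add, e, e, e, Nat.cast_add]
  rw [← sub_eq_zero, ← h1, hV F _ hN]
  refine forall_congr' fun p => forall_congr' fun a => forall_congr' fun _ => ?_
  rw [ord_iff _ _ _ (Nat.pos_of_ne_zero hN), h2, Nat.modEq_iff_dvd, dvd_sub_comm]

theorem dec_mul_iff (hV : s_VAN) (c0 c1 c2 : ℕ) : dec c0 * dec c1 = dec c2 ↔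
    ∀ p a : ℕ, p.Prime → Ord p a (K c0 * K c1 * K c2) →
      ev (L c0) (a ^ (K c1 * K c2)) * ev (L c1) (a ^ (K c0 * K c2)) ≡
        ev (L c2) (a ^ (K c0 * K c1)) [MOD p] := by
  have hN : K c0 * K c1 * K c2 ≠ 0 :=
    mul_ne_zero (mul_ne_zero (Nat.succ_ne_zero _) (Nat.succ_ne_zero _)) (Nat.succ_ne_zero _)
  let F : ℤ[X] := ev (L c0) (X ^ (K c1 * K c2)) * ev (L c1) (X ^ (K c0 * K c2)) -
    ev (L c2) (X ^ (K c0 * K c1))
  have h1 : aeval (zR _ hN) F = dec c0 * dec c1 - dec c2 := by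
    have e : ∀ (l : List ℕ) (m : ℕ), aeval (zR _ hN) (ev l (X ^ m : ℤ[X])) = ev l (zR _ hN ^ m) := by
      intro l m
      have := map_ev (aeval (R := ℤ) (zR _ hN)).toRingHom l (X ^ m : ℤ[X])
      simpa using this
    show aeval (zR _ hN) (ev (L c0) (X ^ (K c1 * K c2)) * ev (L c1) (X ^ (K c0 * K c2)) -
      ev (L c2) (X ^ (K c0 * K c1)) : ℤ[X]) = _
    rw [map_sub, map_mul, e, e, e, dec_eq c0 _ (K c1 * K c2) hN (by ring),
      dec_eq c1 _ (K c0 * K c2) hN (by ring), dec_eq c2 _ (K c0 * K c1) hN (by ring)]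
  have h2 : ∀ a : ℕ, F.eval (a : ℤ) = ((ev (L c0) (a ^ (K c1 * K c2)) *
      ev (L c1) (a ^ (K c0 * K c2)) : ℕ) : ℤ) - ((ev (L c2) (a ^ (K c0 * K c1)) : ℕ) : ℤ) := by
    intro a
    have e : ∀ (l : List ℕ) (m : ℕ), (ev l (X ^ m : ℤ[X])).eval (a : ℤ) =
        ((ev l (a ^ m) : ℕ) : ℤ) := by
      intro l m
      have := map_ev (evalRingHom (a : ℤ)) l (X ^ m : ℤ[X])
      rw [ev_natCast, Nat.cast_pow]
      simpa using this
    show (ev (L c0) (X ^ (K c1 * K c2)) * ev (L c1) (X ^ (K c0 * K c2)) -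
      ev (L c2) (X ^ (K c0 * K c1)) : ℤ[X]).eval (a : ℤ) = _
    rw [eval_sub, eval_mul, e, e, e, Nat.cast_mul]
  rw [← sub_eq_zero, ← h1, hV F _ hN]
  refine forall_congr' fun p => forall_congr' fun a => forall_congr' fun _ => ?_
  rw [ord_iff _ _ _ (Nat.pos_of_ne_zero hN), h2, Nat.modEq_iff_dvd, dvd_sub_comm]

/-! ### definability -/

section
variable {D : ((ℕ → ℕ) → Prop) → Prop} (h : DC D)
include h

theorem tcomp {f : ℕ → ℕ} (hf : Primrec f) {F : (ℕ → ℕ) → ℕ} (hF : DT D F) :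
    DT D (fun w => f (F w)) := by
  have h1 := h.partrec (Nat.Partrec.of_primrec (Primrec.nat_iff.1 hf))
  have h2 : D (fun w => w 1 = f (w 0)) := h.iff (fun w => by simp [eq_comm]) h1
  exact h.app2 (R := fun x y => y = f x) h2 (h.tren (fun n => n + 1) hF) (h.tvar 0)

theorem tpow {F G : (ℕ → ℕ) → ℕ} (hF : DT D F) (hG : DT D G) : DT D (fun w => F w ^ G w) := by
  have hp : Primrec (fun c : ℕ => c.unpair.1 ^ c.unpair.2) := by
    rw [Primrec.nat_iff]
    exact Nat.Primrec.pow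
  have h1 := tcomp h hp (h.tpair hF hG)
  refine h.iff (fun w => ?_) h1
  simp only [Nat.unpair_pair]

theorem tev {F G : (ℕ → ℕ) → ℕ} (hF : DT D F) (hG : DT D G) :
    DT D (fun w => ev (Denumerable.ofNat (List ℕ) (F w)) (G w)) := by
  have hp : Primrec (fun c : ℕ => ev (Denumerable.ofNat (List ℕ) c.unpair.1) c.unpair.2) := by
    simp only [ev_nat]
    have h1 : Primrec (fun c : ℕ => Denumerable.ofNat (List ℕ) c.unpair.1) :=
      (Primrec.ofNat _).comp (Primrec.fst.comp Primrec.unpair)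
    have h2 : Primrec₂ (fun (c : ℕ) (q : ℕ × ℕ) => q.1 + c.unpair.2 * q.2) :=
      Primrec.nat_add.comp (Primrec.fst.comp Primrec.snd)
        (Primrec.nat_mul.comp (Primrec.snd.comp (Primrec.unpair.comp Primrec.fst))
          (Primrec.snd.comp Primrec.snd))
    exact Primrec.list_foldr h1 (Primrec.const 0) h2
  have h1 := tcomp h hp (h.tpair hF hG)
  refine h.iff (fun w => ?_) h1
  simp only [Nat.unpair_pair]

omit h in
theorem cong_iff (p x y : ℕ) : x ≡ y [MOD p] ↔ ∃ s t, x + p * s = y + p * t := by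
  constructor
  · intro h1
    rcases le_total x y with h2 | h2
    · obtain ⟨k, hk⟩ := (Nat.modEq_iff_dvd' h2).1 h1
      exact ⟨k, 0, by omega⟩
    · obtain ⟨k, hk⟩ := (Nat.modEq_iff_dvd' h2).1 h1.symm
      exact ⟨0, k, by omega⟩
  · rintro ⟨s, t, h1⟩
    have h2 : x ≡ x + p * s [MOD p] := by
      unfold Nat.ModEq
      rw [Nat.add_mul_mod_self_left]
    have h3 : y ≡ y + p * t [MOD p] := by
      unfold Nat.ModEq
      rw [Nat.add_mul_mod_self_left]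
    rw [h1] at h2
    exact h2.trans h3.symm

theorem dcong {P F G : (ℕ → ℕ) → ℕ} (hP : DT D P) (hF : DT D F) (hG : DT D G) :
    D (fun w => F w ≡ G w [MOD P w]) := by
  refine h.app3 (R := fun p x y => x ≡ y [MOD p]) ?_ hP hF hG
  refine h.iff (fun w => (cong_iff _ _ _).symm) ?_
  exact h.ex' (S := fun s w => ∃ t, w 1 + w 0 * s = w 2 + w 0 * t)
    (h.ex' (S := fun t w => w 2 + w 1 * w 0 = w 3 + w 1 * t)
      (h.eq (h.tadd (h.tvar 3) (h.tmul (h.tvar 2) (h.tvar 1)))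
        (h.tadd (h.tvar 4) (h.tmul (h.tvar 2) (h.tvar 0)))))

theorem dprime : D (fun w => (w 0).Prime) := by
  have h1 : D (fun w => w 0 ∣ w 1) :=
    h.ex' (S := fun q w => w 1 = w 0 * q) (h.eq (h.tvar 2) (h.tmul (h.tvar 1) (h.tvar 0)))
  refine h.iff (fun w => (Nat.prime_def).symm) (h.and (h.iff (fun w => ?_)
    (h.lt h.tone (h.tvar 0))) (h.all' (S := fun m w => m ∣ w 0 → m = 1 ∨ m = w 0)
    (h.imp h1 (h.or (h.eq (h.tvar 0) h.tone) (h.eq (h.tvar 0) (h.tvar 1))))))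
  exact Iff.rfl

theorem dord : D (fun w => Ord (w 0) (w 1) (w 2)) := by
  refine h.and (dcong h (h.tvar 0) (tpow h (h.tvar 1) (h.tvar 2)) h.tone) ?_
  refine h.all' (S := fun d w => 0 < d → d < w 2 → ¬ w 1 ^ d ≡ 1 [MOD w 0]) ?_
  exact h.imp (h.lt h.tzero (h.tvar 0)) (h.imp (h.lt (h.tvar 0) (h.tvar 3))
    (h.not (dcong h (h.tvar 1) (tpow h (h.tvar 2) (h.tvar 0)) h.tone)))

theorem tK (i : ℕ) : DT D (fun w => K (w i)) := h.tadd (h.tfst (h.tvar i)) h.tone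

theorem tE (i j k : ℕ) : DT D (fun w => ev (L (w i)) (w 0 ^ (K (w j) * K (w k)))) :=
  tev h (h.tsnd (h.tvar i)) (tpow h (h.tvar 0) (h.tmul (tK h j) (tK h k)))

theorem dgen (op : ℕ → ℕ → ℕ)
    (hop : ∀ F G : (ℕ → ℕ) → ℕ, DT D F → DT D G → DT D (fun w => op (F w) (G w))) :
    D (fun w => ∀ p a : ℕ, p.Prime → Ord p a (K (w 0) * K (w 1) * K (w 2)) →
      op (ev (L (w 0)) (a ^ (K (w 1) * K (w 2)))) (ev (L (w 1)) (a ^ (K (w 0) * K (w 2)))) ≡
        ev (L (w 2)) (a ^ (K (w 0) * K (w 1))) [MOD p]) := by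
  refine h.all' (S := fun p w => ∀ a : ℕ, p.Prime → Ord p a (K (w 0) * K (w 1) * K (w 2)) →
      op (ev (L (w 0)) (a ^ (K (w 1) * K (w 2)))) (ev (L (w 1)) (a ^ (K (w 0) * K (w 2)))) ≡
        ev (L (w 2)) (a ^ (K (w 0) * K (w 1))) [MOD p]) ?_
  refine h.all' (S := fun a w => (w 0).Prime → Ord (w 0) a (K (w 1) * K (w 2) * K (w 3)) →
      op (ev (L (w 1)) (a ^ (K (w 2) * K (w 3)))) (ev (L (w 2)) (a ^ (K (w 1) * K (w 3)))) ≡
        ev (L (w 3)) (a ^ (K (w 1) * K (w 2))) [MOD w 0]) ?_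
  refine h.imp (h.app1 (R := fun p => p.Prime) (dprime h) (h.tvar 1)) (h.imp ?_ ?_)
  · exact h.app3 (R := fun p a N => Ord p a N) (dord h) (h.tvar 1) (h.tvar 0)
      (h.tmul (h.tmul (tK h 2) (tK h 3)) (tK h 4))
  · exact dcong h (h.tvar 1) (hop _ _ (tE h 2 3 4) (tE h 3 2 4)) (tE h 4 2 3)

end

theorem h_OPS (hV : s_VAN) : s_OPS := by
  intro D h
  constructor
  · exact h.iff (fun w => (dec_add_iff hV _ _ _).symm)
      (dgen h (fun a b => a + b) fun F G hF hG => h.tadd hF hG)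
  · exact h.iff (fun w => (dec_mul_iff hV _ _ _).symm)
      (dgen h (fun a b => a * b) fun F G hF hG => h.tmul hF hG)

end Pool.Agent.Y908.ZA
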